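import Pool.Agent.H74.AO.HStmts
import Pool.Agent.H98.AO.BStmts

set_option linter.unusedVariables false
set_option linter.unusedSectionVars false
set_option synthInstance.maxSize 100000

namespace AO

open SW MeasureTheory

theorem hg2_mono {Q Q' : ∀ (N : Type) [SetStr N] [ZFC N], Prop}
    (h : ∀ (N : Type) [SetStr N] [ZFC N], WFd N → Q N → Q' N) (hQ : Cod (fun N _ _ => Q N)) :
    Cod (fun N _ _ => Q' N) := by
  obtain ⟨R, hR⟩ := hQ
  exact ⟨R, fun N _ _ hw hc => h N hw (hR N hw hc)⟩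

section
variable {N : Type} [SetStr N]

theorem hg2_two {F : (Fin 2 → N) → N} (h : DfT F) : Fn2 (fun a b : N => F ![a, b]) := by
  have e : (fun w : Fin 2 → N => F ![w 0, w 1]) = F := by
    funext w
    congr 1
    funext i
    fin_cases i <;> rfl
  show DfT (fun w : Fin 2 → N => F ![w 0, w 1])
  rw [e]
  exact h

theorem hg2_three {F : (Fin 3 → N) → N} (h : DfT F) :
    DfT (fun w : Fin 3 → N => F ![w 0, w 1, w 2]) := by
  have e : (fun w : Fin 3 → N => F ![w 0, w 1, w 2]) = F := by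
    funext w
    congr 1
    funext i
    fin_cases i <;> rfl
  rw [e]
  exact h

end

theorem hg2_rb2 {N : Type} [SetStr N] [ZF N] (a b : N) :
    (fun i : Fin 2 => rb (![a, b] i)) = ![rb a, rb b] := by
  funext i
  fin_cases i <;> rfl

theorem hg2_rb3 {N : Type} [SetStr N] [ZF N] (a b c : N) :
    (fun i : Fin 3 => rb (![a, b, c] i)) = ![rb a, rb b, rb c] := by
  funext i
  fin_cases i <;> rfl

theorem ao_hg2 (hcc : HCCStmt) (hbf : HBFStmt) (hks : HKSStmt) (hrb : HRBStmt) (std : STDStmt) :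
    HG2Stmt := by
  intro Z H hN
  obtain ⟨f0, m0, r0, e0⟩ := hN.gx false
  obtain ⟨f1, m1, r1, e1⟩ := hN.gx true
  refine hg2_mono ?_ (hcc.1 _ _ (hbf 2 f0 m0) (hbf 2 f1 m1))
  rintro N _ _ hw ⟨⟨F0, d0, s0⟩, ⟨F1, d1, s1⟩⟩ c
  have hS : Std N := std N hw
  have D0 := hg2_two d0
  have D1 := hg2_two d1
  have _ : ∀ {n : ℕ} {t s : (Fin n → N) → N} [DfT t] [DfT s],
      DfT (fun v => F0 ![t v, s v]) := fun {n} {t s} ht hs => D0.comp2 (f := fun a b => F0 ![a, b]) ht hs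
  have _ : ∀ {n : ℕ} {t s : (Fin n → N) → N} [DfT t] [DfT s],
      DfT (fun v => F1 ![t v, s v]) := fun {n} {t s} ht hs => D1.comp2 (f := fun a b => F1 ![a, b]) ht hs
  let f : N → N → N → N := fun i x k =>
    the (fun y => (i = emp ∧ y = F0 ![x, sing k]) ∨ (i ≠ emp ∧ y = F1 ![x, sing k]))
  have fe : ∀ x k : N, f emp x k = F0 ![x, sing k] := by
    intro x k
    refine the_eq (Or.inl ⟨rfl, rfl⟩) ?_
    rintro z (⟨_, h⟩ | ⟨h, _⟩)
    · exact h
    · exact absurd rfl h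
  have hne : (sing emp : N) ≠ emp := by
    intro h'
    have : E (emp : N) (sing emp) := mem_sing.2 rfl
    rw [h'] at this
    exact not_mem_emp _ this
  have fs : ∀ x k : N, f (sing emp) x k = F1 ![x, sing k] := by
    intro x k
    refine the_eq (Or.inr ⟨hne, rfl⟩) ?_
    rintro z (⟨h, _⟩ | ⟨_, h⟩)
    · exact absurd h hne
    · exact h
  refine ⟨f, ?_, ?_⟩
  · show DfT (fun v : Fin 3 → N => the (fun y => (v 0 = emp ∧ y = F0 ![v 1, sing (v 2)]) ∨
      (v 0 ≠ emp ∧ y = F1 ![v 1, sing (v 2)])))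
    infer_instance
  · intro x hx s
    have hsg : rb (sing (nu (sc s)) : N) = sgl (sc s) := (hrb N hS).2.2 _
    rw [fe, fs]
    have a0 := s0 ![x, sing (nu (sc s))]
    have a1 := s1 ![x, sing (nu (sc s))]
    rw [hg2_rb2, hsg] at a0 a1
    refine ⟨⟨?_, ?_⟩, ⟨?_, ?_⟩⟩
    · rw [(hks N c).2]
      obtain ⟨r, hr⟩ := r0 ![rb x, sgl (sc s)]
      exact ⟨a0.1, r, by rw [a0.2, hr]⟩
    · rw [a0.2, e0]
    · rw [(hks N c).2]
      obtain ⟨r, hr⟩ := r1 ![rb x, sgl (sc s)]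
      exact ⟨a1.1, r, by rw [a1.2, hr]⟩
    · rw [a1.2, e1]

theorem ao_hg3 (hbf : HBFStmt) (hks : HKSStmt) (hrb : HRBStmt) (std : STDStmt) :
    HG3Stmt := by
  intro Z H hN
  obtain ⟨f0, m0, r0, e0⟩ := hN.gt
  refine hg2_mono ?_ (hbf 3 f0 m0)
  rintro N _ _ hw ⟨F0, d0, s0⟩ c
  have hS : Std N := std N hw
  have D0 := hg2_three d0
  refine ⟨fun x y k => F0 ![x, y, sing k], ?_, ?_⟩
  · exact D0.comp3 (f := fun a b c => F0 ![a, b, c]) (DfT.var 0) (DfT.var 1)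
      (inferInstance : DfT (fun v : Fin 3 → N => sing (v 2)))
  · intro x y hx hy n
    have hsg : rb (sing (nu n) : N) = sgl n := (hrb N hS).2.2 _
    have a0 := s0 ![x, y, sing (nu n)]
    rw [hg2_rb3, hsg] at a0
    refine ⟨?_, ?_⟩
    · rw [(hks N c).2]
      obtain ⟨r, hr⟩ := r0 ![rb x, rb y, sgl n]
      exact ⟨a0.1, r, by rw [a0.2, hr]⟩
    · rw [a0.2, e0]

end AO
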