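import Pool.Agent.H74.AO.HStmts
import Pool.Agent.H98.AO.BStmts
import Pool.Agent.H78.CUR.NU

set_option linter.unusedVariables false
set_option linter.unusedSectionVars false
set_option synthInstance.maxSize 100000

namespace AO

open SW MeasureTheory

section
variable {N : Type} [SetStr N] [ZF N]

theorem hcd_two {R : Set (Fin 5 → ℕ)} (h : Has N R) : ∃ z : N, ∀ i j : ℕ,
    E (opair (nu i) (nu j)) z ↔ (![i, j, 0, 0, 0] : Fin 5 → ℕ) ∈ R := by
  obtain ⟨r, hr⟩ := h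
  have hcl : Cl (fun z : N => ∃ a b, z = opair a b ∧
      E (opair a (opair b (opair (nu 0) (opair (nu 0) (nu 0))))) r) := by infer_instance
  refine ⟨sep (prod om om) (fun z => ∃ a b, z = opair a b ∧
      E (opair a (opair b (opair (nu 0) (opair (nu 0) (nu 0))))) r), fun i j => ?_⟩
  rw [mem_sep' hcl, ← hr]
  have e : CUR.tupv 4 (fun k => (nu ((![i, j, 0, 0, 0] : Fin 5 → ℕ) k) : N)) =
    opair (nu i) (opair (nu j) (opair (nu 0) (opair (nu 0) (nu 0)))) := rfl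
  rw [e]
  constructor
  · rintro ⟨_, a, b, h1, h2⟩
    obtain ⟨rfl, rfl⟩ := opair_inj.1 h1
    exact h2
  · intro h2
    refine ⟨mem_prod.2 ⟨CUR.nu_mem_om i, CUR.nu_mem_om j⟩, _, _, rfl, h2⟩

theorem hcd_three {R : Set (Fin 5 → ℕ)} (h : Has N R) : ∃ z : N, ∀ i j k : ℕ,
    E (opair (nu i) (opair (nu j) (nu k))) z ↔ (![i, j, k, 0, 0] : Fin 5 → ℕ) ∈ R := by
  obtain ⟨r, hr⟩ := h
  have hcl : Cl (fun z : N => ∃ a b c, z = opair a (opair b c) ∧
      E (opair a (opair b (opair c (opair (nu 0) (nu 0))))) r) := by infer_instance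
  refine ⟨sep (prod om (prod om om)) (fun z => ∃ a b c, z = opair a (opair b c) ∧
      E (opair a (opair b (opair c (opair (nu 0) (nu 0))))) r), fun i j k => ?_⟩
  rw [mem_sep' hcl, ← hr]
  have e : CUR.tupv 4 (fun l => (nu ((![i, j, k, 0, 0] : Fin 5 → ℕ) l) : N)) =
    opair (nu i) (opair (nu j) (opair (nu k) (opair (nu 0) (nu 0)))) := rfl
  rw [e]
  constructor
  · rintro ⟨_, a, b, c, h1, h2⟩
    obtain ⟨rfl, h3⟩ := opair_inj.1 h1
    obtain ⟨rfl, rfl⟩ := opair_inj.1 h3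
    exact h2
  · intro h2
    refine ⟨mem_prod.2 ⟨CUR.nu_mem_om i, mem_prod.2 ⟨CUR.nu_mem_om j, CUR.nu_mem_om k⟩⟩,
      _, _, _, rfl, h2⟩

end

/-- the codes used by HCD -/
def hcdR : ℕ → Set (Fin 5 → ℕ)
  | 0 => {t | CUR.qq (t 0) < CUR.qq (t 1)}
  | 1 => {t | CUR.qq (t 2) ≤ CUR.qq (t 0) + CUR.qq (t 1)}
  | 2 => {t | (CUR.qq (t 1) : ℝ) < 1 / ((t 0 : ℝ) + 1)}
  | 3 => {t | ∀ a b : ℝ, CUR.qq (t 0) < a → a ≤ CUR.qq (t 1) → CUR.qq (t 2) < b →
      b ≤ CUR.qq (t 3) → CUR.qq (t 4) < a * b}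
  | _ => {t | ∀ a : ℝ, CUR.qq (t 0) < a → a ≤ CUR.qq (t 1) → CUR.qq (t 2) < a⁻¹}

theorem ao_hcd (std : STDStmt) : HCDStmt := by
  refine ⟨hcdR, fun N _ _ hw hR => ?_⟩
  obtain ⟨lt, hlt⟩ := hcd_two (hR 0)
  obtain ⟨ad, had⟩ := hcd_three (hR 1)
  obtain ⟨hc, hhc⟩ := hcd_two (hR 2)
  obtain ⟨mu, hmu⟩ := hR 3
  obtain ⟨iv, hiv⟩ := hcd_three (hR 4)
  exact ⟨{ lt := lt
           ad := ad
           hc := hc
           mu := mu
           iv := iv
           std := std N hw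
           hlt := fun i j => hlt i j
           had := fun i j k => had i j k
           hhc := fun n j => hhc n j
           hmu := fun t => hmu t
           hiv := fun t => hiv (t 0) (t 1) (t 2) }⟩

end AO
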