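import Pool.Agent.H74.AO.HStmts
import Pool.Agent.H98.AO.BStmts

set_option linter.unusedVariables false
set_option linter.unusedSectionVars false
set_option synthInstance.maxSize 100000

namespace AO

open SW MeasureTheory

theorem ao_hgm (hcc : HCCStmt) (had : HADStmt) (han : HANStmt) (hks : HKSStmt) : HGMStmt := by
  intro Z H hN
  have hA : AnalyticSet {x : Fin 3 → Rl | H (x 0) * H (x 1) = H (x 2)} := hN.grc.analyticSet
  obtain ⟨R, hR⟩ := hcc.1 _ _ (had 3 _ hA) (han _ hN.grp)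
  refine ⟨R, fun N _ _ hw hc c L hL => ?_⟩
  obtain ⟨h1, h2⟩ := hR N hw hc
  have h3 : Cl3 (fun a b d : N => H (rb a) * H (rb b) = H (rb d)) := h1.congr fun v => Iff.rfl
  have _ : ∀ {n : ℕ} {t s u : (Fin n → N) → N} [DfT t] [DfT s] [DfT u],
      Df (fun v => H (rb (t v)) * H (rb (s v)) = H (rb (u v))) := fun {n} {t s u} ht hs hu =>
    Df.comp3 (R := fun a b d : N => H (rb a) * H (rb b) = H (rb d)) h3 ht hs hu
  let K : N := CUR.KS c
  have hcl : Cl (fun t : N => ∃ a b d, t = opair (opair a b) d ∧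
      H (rb a) * H (rb b) = H (rb d)) := by infer_instance
  let m : N := sep (prod (prod K K) K) (fun t => ∃ a b d, t = opair (opair a b) d ∧
    H (rb a) * H (rb b) = H (rb d))
  have hm : ∀ t, E t m ↔ ∃ a b d, E a (CUR.KS c) ∧ E b (CUR.KS c) ∧
      E d (CUR.KS c) ∧ t = opair (opair a b) d ∧ H (rb a) * H (rb b) = H (rb d) := by
    intro t
    rw [mem_sep' hcl]
    constructor
    · rintro ⟨h4, a, b, d, rfl, h5⟩
      rw [mem_prod, mem_prod] at h4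
      exact ⟨a, b, d, h4.1.1, h4.1.2, h4.2, rfl, h5⟩
    · rintro ⟨a, b, d, ha, hb, hd, rfl, h5⟩
      refine ⟨?_, a, b, d, rfl, h5⟩
      rw [mem_prod, mem_prod]
      exact ⟨⟨ha, hb⟩, hd⟩
  refine ⟨m, hm, h2 c L hL m fun t => ?_⟩
  rw [hm]
  constructor
  · rintro ⟨a, b, d, ha, hb, hd, rfl, h5⟩
    obtain ⟨sa, x, hx⟩ := ((hks N c).2 a).1 ha
    obtain ⟨sb, y, hy⟩ := ((hks N c).2 b).1 hb
    obtain ⟨sd, z, hz⟩ := ((hks N c).2 d).1 hd
    refine ⟨a, b, d, ![x, y, z], ((hks N c).1 a x).2 ⟨sa, hx⟩, ((hks N c).1 b y).2 ⟨sb, hy⟩,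
      ((hks N c).1 d z).2 ⟨sd, hz⟩, rfl, ?_⟩
    show H (cutc x) * H (cutc y) = H (cutc z)
    rw [← hx, ← hy, ← hz]
    exact h5
  · rintro ⟨a, b, d, x, ha, hb, hd, rfl, h5⟩
    obtain ⟨sa, hx⟩ := ((hks N c).1 a _).1 ha
    obtain ⟨sb, hy⟩ := ((hks N c).1 b _).1 hb
    obtain ⟨sd, hz⟩ := ((hks N c).1 d _).1 hd
    refine ⟨a, b, d, ((hks N c).2 a).2 ⟨sa, _, hx⟩, ((hks N c).2 b).2 ⟨sb, _, hy⟩,
      ((hks N c).2 d).2 ⟨sd, _, hz⟩, rfl, ?_⟩
    rw [hx, hy, hz]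
    exact h5

end AO
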