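import Pool.Agent.H47.AO.HCD

set_option linter.unusedVariables false
set_option linter.unusedSectionVars false
set_option synthInstance.maxSize 100000

namespace AO

open SW MeasureTheory

theorem ao_huf (std : STDStmt) : HUFStmt := by
  refine ⟨fun _ => {t | Nat.pair (t 0) (t 1) = t 2}, fun N _ _ hw hR y hy u hu => ?_⟩
  have hS : Std N := std N hw
  obtain ⟨p, hp⟩ := hcd_three (hR 0)
  have hp : ∀ i j k : ℕ, E (opair (nu i) (opair (nu j) (nu k))) p ↔ Nat.pair i j = k :=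
    fun i j k => hp i j k
  have hcl : Cl (fun w : N => ∃ a b, w = opair a b ∧ ∃ d, E d y ∧ E (opair a (opair b d)) p) := by
    infer_instance
  have hmem : ∀ k v : ℕ, PairIn (nu k) (nu v) (sep (prod om om) (fun w : N => ∃ a b,
      w = opair a b ∧ ∃ d, E d y ∧ E (opair a (opair b d)) p)) ↔ u k = v := by
    intro k v
    rw [pairIn_iff, mem_sep' hcl, ← hu k v]
    have e : rb y (Nat.pair k v) = true ↔ E (nu (Nat.pair k v)) y := by
      unfold rb
      simp only [decide_eq_true_eq]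
    rw [e]
    constructor
    · rintro ⟨_, a, b, h1, d, h2, h3⟩
      obtain ⟨rfl, rfl⟩ := opair_inj.1 h1
      obtain ⟨n, rfl⟩ := hS d (hy d h2)
      rw [(hp k v n).1 h3]
      exact h2
    · intro h
      exact ⟨mem_prod.2 ⟨CUR.nu_mem_om k, CUR.nu_mem_om v⟩, _, _, rfl, _, h, (hp k v _).2 rfl⟩
  refine ⟨sep (prod om om) (fun w : N => ∃ a b,
      w = opair a b ∧ ∃ d, E d y ∧ E (opair a (opair b d)) p), ⟨?_, ?_⟩, hmem⟩
  · intro z hz
    obtain ⟨a, b, ha, hb, rfl⟩ := mem_prod'.1 ((mem_sep' hcl).1 hz).1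
    exact ⟨a, b, ha, hb, isOP_iff.2 rfl⟩
  · intro x hx
    obtain ⟨k, rfl⟩ := hS x hx
    refine ⟨nu (u k), (hmem k (u k)).2 rfl, fun y' hy' => ?_⟩
    obtain ⟨a, b, ha, hb, e⟩ := mem_prod'.1 ((mem_sep' hcl).1 (pairIn_iff.1 hy')).1
    obtain ⟨rfl, rfl⟩ := opair_inj.1 e
    obtain ⟨v, rfl⟩ := hS _ hb
    rw [(hmem k v).1 hy']

end AO
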