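import Pool.Agent.H47.AO.NFD
import Pool.Agent.H47.AO.HCD

set_option linter.unusedVariables false
set_option linter.unusedSectionVars false
set_option synthInstance.maxSize 100000

namespace AO

open SW

/-- the codes used by IBS -/
def ibsR : ℕ → Set (Fin 5 → ℕ)
  | 0 => {t | ∃ s : Str, sc s = t 0 ∧ s.length = t 1}
  | _ => {t | ∃ s : Str, sc s = t 0 ∧ s[t 1]? = some true}

section
variable {N : Type} [SetStr N] [ZF N]

/-- `s` codes the string of length `n` of `y` -/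
def SO (r1 r2 s y n : N) : Prop := E (opair s n) r1 ∧ ∀ i, E i n → (E (opair s i) r2 ↔ E i y)

theorem so_iff {r1 r2 : N} (h1 : ∀ i j : ℕ, E (opair (nu i) (nu j)) r1 ↔
      ∃ s : Str, sc s = i ∧ s.length = j)
    (h2 : ∀ i j : ℕ, E (opair (nu i) (nu j)) r2 ↔ ∃ s : Str, sc s = i ∧ s[j]? = some true)
    (s : Str) (y : N) (n : ℕ) : SO r1 r2 (nu (sc s)) y (nu n) ↔ s = str (rb y) n := by
  have hinj : ∀ s' : Str, sc s' = sc s → s' = s := fun s' e => Encodable.encode_injective e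
  have g1 : ∀ j, E (opair (nu (sc s)) (nu j)) r1 ↔ s.length = j := by
    intro j
    rw [h1]
    constructor
    · rintro ⟨s', e, h⟩
      rwa [hinj s' e] at h
    · exact fun h => ⟨s, rfl, h⟩
  have g2 : ∀ j, E (opair (nu (sc s)) (nu j)) r2 ↔ s[j]? = some true := by
    intro j
    rw [h2]
    constructor
    · rintro ⟨s', e, h⟩
      rwa [hinj s' e] at h
    · exact fun h => ⟨s, rfl, h⟩
  unfold SO
  rw [g1]
  have hl : (str (rb y) n).length = n := by simp [str]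
  have hg : ∀ i, i < n → (str (rb y) n)[i]? = some (rb y i) := by
    intro i hi
    unfold str
    rw [List.getElem?_map, List.getElem?_range hi]
    rfl
  constructor
  · rintro ⟨e, h⟩
    refine List.ext_getElem? fun i => ?_
    by_cases hi : i < n
    · rw [hg i hi]
      have h3 := h (nu i) (CUR.nu_lt hi)
      rw [g2, ← rb_iff] at h3
      have hi' : i < s.length := by omega
      rw [List.getElem?_eq_getElem hi'] at h3 ⊢
      cases hb : s[i] <;> cases hb' : rb y i <;> simp [hb, hb'] at h3 ⊢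
    · rw [List.getElem?_eq_none (by omega), List.getElem?_eq_none (by omega)]
  · rintro rfl
    refine ⟨hl, fun i hi => ?_⟩
    obtain ⟨j, hj, rfl⟩ := (mem_nu' n i).1 hi
    rw [g2, hg j hj, ← rb_iff]
    simp

/-- the strings of vertices of the first side used by the order -/
def UF (r1 r2 V W k x s : N) : Prop := ∃ y n, Sub y om ∧ E n om ∧ E (vx true y) V ∧
  ZZ (rb x) (rb y) ∧ E (app k (opair x y)) (suc n) ∧ E (opair (vx true y) (vx false x)) W ∧
  SO r1 r2 s y (suc n)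

/-- the strings of vertices of the second side used by the order -/
def UT (r1 r2 V W k y s : N) : Prop := ∃ x n, Sub x om ∧ E n om ∧ E (vx false x) V ∧
  ZZ (rb x) (rb y) ∧ E (app k (opair x y)) (suc n) ∧ E (opair (vx false x) (vx true y)) W ∧
  SO r1 r2 s x (suc n)

end

theorem ibs (hvox : VOXStmt) : IBSStmt := by
  refine ⟨ibsR, fun N _ _ hS hR hZ c m L h hG V W k κ hV hk => ?_⟩
  have hVx : VoxFacts N := hvox N hS
  have hZ' : Cl2 (fun x y : N => ZZ (rb x) (rb y)) := hZ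
  have _ : ∀ {n : ℕ} {t s : (Fin n → N) → N} [DfT t] [DfT s],
      Df (fun v => ZZ (rb (t v)) (rb (s v))) := fun {n} {t s} ht hs =>
    Df.comp2 (R := fun x y : N => ZZ (rb x) (rb y)) hZ' ht hs
  obtain ⟨r1, h1⟩ := hcd_two (hR 0)
  obtain ⟨r2, h2⟩ := hcd_two (hR 1)
  have h1 : ∀ i j : ℕ, E (opair (nu i) (nu j)) r1 ↔ ∃ s : Str, sc s = i ∧ s.length = j :=
    fun i j => h1 i j
  have h2 : ∀ i j : ℕ, E (opair (nu i) (nu j)) r2 ↔ ∃ s : Str, sc s = i ∧ s[j]? = some true :=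
    fun i j => h2 i j
  have hso := so_iff h1 h2
  obtain ⟨f, hf, hfx⟩ := hG.gx
  obtain ⟨g, hg, hgx⟩ := hG.gt
  have _ : ∀ {n : ℕ} {t s u : (Fin n → N) → N} [DfT t] [DfT s] [DfT u],
      DfT (fun v => f (t v) (s v) (u v)) := fun {n} {t s u} ht hs hu => hf.comp3 ht hs hu
  have _ : ∀ {n : ℕ} {t s u : (Fin n → N) → N} [DfT t] [DfT s] [DfT u],
      DfT (fun v => g (t v) (s v) (u v)) := fun {n} {t s u} ht hs hu => hg.comp3 ht hs hu
  have hkle : ∀ (x y : N) (n : ℕ), Sub x om → Sub y om →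
      (E (app k (opair x y)) (suc (nu n)) ↔ κ (rb x) (rb y) ≤ n) := by
    intro x y n hx hy
    rw [hk x y hx hy]
    show E (nu _) (nu (n + 1) : N) ↔ _
    rw [mem_nu']
    constructor
    · rintro ⟨m, hm, e⟩
      rw [CUR.nu_inj e]
      omega
    · intro hle
      exact ⟨_, by omega, rfl⟩
  have hsubx : ∀ (i : Bool) (x : N), E (vx i x) V → Sub x om := by
    intro i x h
    obtain ⟨j, x', hx', e⟩ := hVx.ofV V _ hV h
    obtain ⟨_, rfl⟩ := vx_inj e
    exact hx'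
  have hUF : ∀ (x : N) (s : Str), Sub x om → E (vx false x) V →
      (UF r1 r2 V W k x (nu (sc s)) ↔ Used ZZ (VX V) (rW W) κ (false, rb x) s) := by
    intro x s hx hxV
    constructor
    · rintro ⟨y, n, hy, hn, hyV, hz, hle, hw, hs⟩
      obtain ⟨n, rfl⟩ := hS n hn
      refine ⟨rb x, rb y, n, (hVx.mem V x false hx).2 hxV, (hVx.mem V y true hy).2 hyV, hz,
        (hkle x y n hx hy).1 hle, Or.inl ⟨(hVx.rw W y x true false hy hx).2 hw, rfl, ?_⟩⟩
      exact (hso s y (n + 1)).1 hs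
    · rintro ⟨X, Y, n, hX, hY, hz, hle, ⟨hw, e, hs⟩ | ⟨_, e, _⟩⟩
      · obtain rfl : rb x = X := congrArg Prod.snd e
        obtain ⟨y, hy, e', hyV⟩ := hY
        subst e'
        exact ⟨y, nu n, hy, CUR.nu_mem_om n, hyV, hz, (hkle x y n hx hy).2 hle,
          (hVx.rw W y x true false hy hx).1 hw, (hso s y (n + 1)).2 hs⟩
      · exact absurd (congrArg Prod.fst e) (by simp)
  have hUT : ∀ (y : N) (s : Str), Sub y om → E (vx true y) V →
      (UT r1 r2 V W k y (nu (sc s)) ↔ Used ZZ (VX V) (rW W) κ (true, rb y) s) := by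
    intro y s hy hyV
    constructor
    · rintro ⟨x, n, hx, hn, hxV, hz, hle, hw, hs⟩
      obtain ⟨n, rfl⟩ := hS n hn
      refine ⟨rb x, rb y, n, (hVx.mem V x false hx).2 hxV, (hVx.mem V y true hy).2 hyV, hz,
        (hkle x y n hx hy).1 hle, Or.inr ⟨(hVx.rw W x y false true hx hy).2 hw, rfl, ?_⟩⟩
      exact (hso s x (n + 1)).1 hs
    · rintro ⟨X, Y, n, hX, hY, hz, hle, ⟨_, e, _⟩ | ⟨hw, e, hs⟩⟩
      · exact absurd (congrArg Prod.fst e) (by simp)
      · obtain rfl : rb y = Y := congrArg Prod.snd e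
        obtain ⟨x, hx, e', hxV⟩ := hX
        subst e'
        exact ⟨x, nu n, hx, CUR.nu_mem_om n, hxV, hz, (hkle x y n hx hy).2 hle,
          (hVx.rw W x y false true hx hy).1 hw, (hso s x (n + 1)).2 hs⟩
  -- the set
  have hcl : Cl (fun a : N =>
      (∃ x s n, Sub x om ∧ E n om ∧ E (vx false x) V ∧ E s om ∧ E (opair s n) r1 ∧
        ¬ UF r1 r2 V W k x s ∧ a = f emp x s) ∨
      (∃ y s n, Sub y om ∧ E n om ∧ E (vx true y) V ∧ E s om ∧ E (opair s n) r1 ∧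
        ¬ UT r1 r2 V W k y s ∧ a = f (sing emp) y s) ∨
      ∃ x y n, Sub x om ∧ Sub y om ∧ E n om ∧ E (vx false x) V ∧ E (vx true y) V ∧
        ZZ (rb x) (rb y) ∧ E (app k (opair x y)) (suc n) ∧ a = g x y n) := by
    unfold UF UT SO
    infer_instance
  refine ⟨sep (CUR.KS c) _, fun a ha => ((mem_sep' hcl).1 ha).1, fun a ha => ?_⟩
  rw [mem_sep' hcl]
  constructor
  · rintro ⟨_, ⟨x, s, n, hx, hn, hxV, hs, hsn, hu, rfl⟩ | ⟨y, s, n, hy, hn, hyV, hs, hsn, hu, rfl⟩ |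
      ⟨x, y, n, hx, hy, hn, hxV, hyV, hz, hle, rfl⟩⟩
    · obtain ⟨n, rfl⟩ := hS n hn
      obtain ⟨j, rfl⟩ := hS s hs
      obtain ⟨s, rfl, _⟩ := (h1 j n).1 hsn
      refine Or.inl ⟨(false, rb x), s, (hVx.mem V x false hx).2 hxV, ?_, (hfx x hx s).1.2⟩
      exact fun h' => hu ((hUF x s hx hxV).2 h')
    · obtain ⟨n, rfl⟩ := hS n hn
      obtain ⟨j, rfl⟩ := hS s hs
      obtain ⟨s, rfl, _⟩ := (h1 j n).1 hsn
      refine Or.inl ⟨(true, rb y), s, (hVx.mem V y true hy).2 hyV, ?_, (hfx y hy s).2.2⟩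
      exact fun h' => hu ((hUT y s hy hyV).2 h')
    · obtain ⟨n, rfl⟩ := hS n hn
      exact Or.inr ⟨rb x, rb y, n, (hVx.mem V x false hx).2 hxV, (hVx.mem V y true hy).2 hyV, hz,
        (hkle x y n hx hy).1 hle, (hgx x y hx hy n).2⟩
  · rintro (⟨⟨i, X⟩, s, ⟨x, hx, e, hxV⟩, hu, e'⟩ | ⟨X, Y, n, ⟨x, hx, e, hxV⟩, ⟨y, hy, e2, hyV⟩, hz,
      hle, e'⟩)
    · simp only at e hxV
      subst e
      refine ⟨ha, ?_⟩
      cases i
      · refine Or.inl ⟨x, nu (sc s), nu s.length, hx, CUR.nu_mem_om _, hxV, CUR.nu_mem_om _,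
          (h1 _ _).2 ⟨s, rfl, rfl⟩, fun h' => hu ((hUF x s hx hxV).1 h'), ?_⟩
        exact hG.inj _ _ ha (hfx x hx s).1.1 (by rw [e', (hfx x hx s).1.2])
      · refine Or.inr (Or.inl ⟨x, nu (sc s), nu s.length, hx, CUR.nu_mem_om _, hxV,
          CUR.nu_mem_om _, (h1 _ _).2 ⟨s, rfl, rfl⟩, fun h' => hu ((hUT x s hx hxV).1 h'), ?_⟩)
        exact hG.inj _ _ ha (hfx x hx s).2.1 (by rw [e', (hfx x hx s).2.2])
    · simp only at e hxV e2 hyV
      subst e
      subst e2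
      refine ⟨ha, Or.inr (Or.inr ⟨x, y, nu n, hx, hy, CUR.nu_mem_om _, hxV, hyV, hz,
        (hkle x y n hx hy).2 hle, ?_⟩)⟩
      exact hG.inj _ _ ha (hgx x y hx hy n).1 (by rw [e', (hgx x y hx hy n).2])

end AO
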