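import Pool.Agent.H47.AO.NFD
import Pool.Agent.H31.CC.CHS

set_option linter.unusedVariables false
set_option linter.unusedSectionVars false
set_option synthInstance.maxSize 100000

namespace AO

open SW

section
variable {N : Type} [SetStr N] [ZF N]

/-- the least natural number with the property `C`, if there is one -/
noncomputable def klst (C : N → Prop) : N :=
  the (fun n => E n om ∧ (C n ∨ ¬ ∃ m, E m om ∧ C m) ∧
    ∀ m, E m n → ¬ (C m ∨ ¬ ∃ m', E m' om ∧ C m'))

theorem klst_spec (hS : Std N) (C : N → Prop) :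
    E (klst C) om ∧ ((∃ m, E m om ∧ C m) → C (klst C)) := by
  classical
  let D : N → Prop := fun n => C n ∨ ¬ ∃ m, E m om ∧ C m
  have hex : ∃ n : ℕ, D (nu n) := by
    by_cases h : ∃ m, E m om ∧ C m
    · obtain ⟨m, hm, hC⟩ := h
      obtain ⟨n, rfl⟩ := hS m hm
      exact ⟨n, Or.inl hC⟩
    · exact ⟨0, Or.inr h⟩
  have huniq : ∃! n : N, E n om ∧ (C n ∨ ¬ ∃ m, E m om ∧ C m) ∧
      ∀ m, E m n → ¬ (C m ∨ ¬ ∃ m', E m' om ∧ C m') := by
    refine ⟨nu (Nat.find hex), ⟨CUR.nu_mem_om _, Nat.find_spec hex, fun m hm hD => ?_⟩, ?_⟩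
    · obtain ⟨j, hj, rfl⟩ := (mem_nu' _ m).1 hm
      exact Nat.find_min hex hj hD
    · rintro n ⟨h1, h2, h3⟩
      obtain ⟨j, rfl⟩ := hS n h1
      rcases lt_trichotomy j (Nat.find hex) with h | h | h
      · exact absurd h2 (Nat.find_min hex h)
      · rw [h]
      · exact absurd (Nat.find_spec hex) (h3 _ (CUR.nu_lt h))
  have h := the_spec huniq
  refine ⟨h.1, fun hex' => ?_⟩
  rcases h.2.1 with h1 | h1
  · exact h1
  · exact absurd hex' h1

/-- finitely many different sets can be separated from a given set -/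
theorem kap_fin (hV : VoxFacts N) (Y : N → Prop) (f : N → N) (y : N) (hy : Sub y om)
    (hinj : ∀ y' y'', Y y' → Y y'' → f y' = f y'' → y' = y'')
    (hY : ∀ y', Y y' → Sub y' om ∧ y' ≠ y) (m : ℕ) : ∃ n : ℕ, ∀ y', Y y' → E (f y') (nu m) →
      inter y (nu n) ≠ inter y' (nu n) := by
  have hmono : ∀ (y' : N) (a b : ℕ), a ≤ b → inter y (nu a) ≠ inter y' (nu a) →
      inter y (nu b) ≠ inter y' (nu b) := by
    intro y' a b hab h1 h2
    rw [ne_eq, inter_nu_eq_iff] at h1
    rw [inter_nu_eq_iff] at h2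
    exact h1 fun k hk => h2 k (lt_of_lt_of_le hk hab)
  induction m with
  | zero => exact ⟨0, fun y' _ h => absurd h (not_mem_emp _)⟩
  | succ m ih =>
    obtain ⟨n, hn⟩ := ih
    by_cases hc : ∃ y0, Y y0 ∧ f y0 = nu m
    · obtain ⟨y0, hY0, h0⟩ := hc
      obtain ⟨n0, hn0⟩ := hV.sepr y y0 hy (hY y0 hY0).1 (hY y0 hY0).2.symm
      refine ⟨max n n0, fun y' h1 h2 => ?_⟩
      rcases mem_suc.1 (show E (f y') (suc (nu m)) from h2) with h3 | h3
      · exact hmono y' n _ (le_max_left _ _) (hn y' h1 h3)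
      · have e : y' = y0 := hinj y' y0 h1 hY0 (h3.trans h0.symm)
        rw [e]
        exact hmono y0 n0 _ (le_max_right _ _) hn0
    · refine ⟨n, fun y' h1 h2 => ?_⟩
      rcases mem_suc.1 (show E (f y') (suc (nu m)) from h2) with h3 | h3
      · exact hn y' h1 h3
      · exact absurd ⟨y', h1, h3⟩ hc

/-- the number of `v'` in the enumeration belonging to `v` -/
noncomputable def knum (g v v' : N) : N := klst (fun n => E (opair v' n) (app g v))

instance knum_dft {n : ℕ} {t s u : (Fin n → N) → N} [ht : DfT t] [hs : DfT s] [hu : DfT u] :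
    DfT (fun v => knum (t v) (s v) (u v)) := by
  have : DfT (fun v : Fin 3 → N => knum (v 0) (v 1) (v 2)) := by
    unfold knum klst; infer_instance
  exact this.comp3 ht hs hu

/-- the property of the numbers `n` which separate -/
def KP (V W g x y n : N) : Prop :=
  (∀ y', Sub y' om → E (vx true y') V → E (opair (vx true y') (vx false x)) W →
    ZZ (rb x) (rb y') → E (knum g (vx false x) (vx true y')) (knum g (vx false x) (vx true y)) →
    inter y (suc n) ≠ inter y' (suc n)) ∧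
  ∀ x', Sub x' om → E (vx false x') V → E (opair (vx false x') (vx true y)) W →
    ZZ (rb x') (rb y) → E (knum g (vx true y) (vx false x')) (knum g (vx true y) (vx false x)) →
    inter x (suc n) ≠ inter x' (suc n)

end

theorem kap (hvox : VOXStmt) : KAPStmt := by
  intro N _ _ hS hZ V W hV hW
  have hVx : VoxFacts N := hvox N hS
  have hC : CbFacts N := ma_cbt ma_acf N
  have hZ' : Cl2 (fun x y : N => ZZ (rb x) (rb y)) := hZ
  have _ : ∀ {n : ℕ} {t s : (Fin n → N) → N} [DfT t] [DfT s],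
      Df (fun v => ZZ (rb (t v)) (rb (s v))) := fun {n} {t s} ht hs =>
    Df.comp2 (R := fun x y : N => ZZ (rb x) (rb y)) hZ' ht hs
  have hNb : Cl2 (fun v v' : N => Nb v v') := by
    unfold Nb
    infer_instance
  have _ : ∀ {n : ℕ} {t s : (Fin n → N) → N} [DfT t] [DfT s],
      Df (fun v => Nb (t v) (s v)) := fun {n} {t s} ht hs => hNb.comp2 ht hs
  -- the enumerations of the earlier neighbours
  have hR : Cl2 (fun v f : N =>
      (∀ v', E v' V → E (opair v' v) W → Nb v' v → ∃ n, E n om ∧ E (opair v' n) f) ∧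
      ∀ v' v'' n, E v' V → E (opair v' v) W → Nb v' v → E v'' V → E (opair v'' v) W →
        Nb v'' v → E n om → E (opair v' n) f → E (opair v'' n) f → v' = v'') := by
    infer_instance
  obtain ⟨g, hg⟩ := SW.CC.cc_chs ma_acf N V _ hR (by
    intro v hv
    obtain ⟨C, hCb, hCm⟩ := hW.cnt v hv
    obtain ⟨f, h1, h2⟩ := hCb
    exact ⟨f, fun v' h3 h4 h5 => h1 v' (hCm v' h3 h4 h5),
      fun v' v'' n h3 h4 h5 h3' h4' h5' hn h6 h7 =>
        h2 v' v'' n (hCm v' h3 h4 h5) (hCm v'' h3' h4' h5') hn h6 h7⟩)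
  have hinj : ∀ v v' v'', E v V → E v' V → E (opair v' v) W → Nb v' v → E v'' V →
      E (opair v'' v) W → Nb v'' v → knum g v v' = knum g v v'' → v' = v'' := by
    intro v v' v'' hv h1 h2 h3 h1' h2' h3' e
    obtain ⟨hg1, hg2⟩ := hg v hv
    have a1 := klst_spec hS (fun n => E (opair v' n) (app g v))
    have a2 := klst_spec hS (fun n => E (opair v'' n) (app g v))
    refine hg2 v' v'' (knum g v v') h1 h2 h3 h1' h2' h3' a1.1 (a1.2 (hg1 v' h1 h2 h3)) ?_
    rw [e]
    exact a2.2 (hg1 v'' h1' h2' h3')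
  have hnm : ∀ v v', ∃ k : ℕ, knum g v v' = nu k := fun v v' =>
    hS _ (klst_spec hS (fun n => E (opair v' n) (app g v))).1
  -- the function
  let K : N → N → N := fun x y => klst (fun n => KP V W g x y n)
  have hK : Fn2 K := by
    show DfT (fun w : Fin 2 → N => klst (fun n => KP V W g (w 0) (w 1) n))
    unfold klst KP
    infer_instance
  have _ : ∀ {n : ℕ} {t s : (Fin n → N) → N} [DfT t] [DfT s],
      DfT (fun v => K (t v) (s v)) := fun {n} {t s} ht hs => hK.comp2 ht hs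
  have hK1 : Fn1 (fun z : N => K (SW.CC.fst z) (SW.CC.snd z)) := by
    show DfT (fun w : Fin 1 → N => K (SW.CC.fst (w 0)) (SW.CC.snd (w 0)))
    infer_instance
  let k : N := gr (prod (pow om) (pow om)) (fun z => K (SW.CC.fst z) (SW.CC.snd z))
  have hk : ∀ x y : N, Sub x om → Sub y om → app k (opair x y) = K x y := by
    intro x y hx hy
    show app (gr (prod (pow om) (pow om)) (fun z => K (SW.CC.fst z) (SW.CC.snd z)))
      (opair x y) = K x y
    rw [app_gr hK1 (mem_prod.2 ⟨mem_pow.2 hx, mem_pow.2 hy⟩), SW.CC.fst_opair, SW.CC.snd_opair]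
  have hmono : ∀ (y y' : N) (a b : ℕ), a ≤ b → inter y (nu a) ≠ inter y' (nu a) →
      inter y (nu b) ≠ inter y' (nu b) := by
    intro y y' a b hab h1 h2
    rw [ne_eq, inter_nu_eq_iff] at h1
    rw [inter_nu_eq_iff] at h2
    exact h1 fun k hk => h2 k (lt_of_lt_of_le hk hab)
  have hex : ∀ x y : N, Sub x om → Sub y om → E (vx false x) V → E (vx true y) V →
      ∃ n, E n om ∧ KP V W g x y n := by
    intro x y hx hy hxV hyV
    obtain ⟨p, hp⟩ := hnm (vx false x) (vx true y)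
    obtain ⟨q, hq⟩ := hnm (vx true y) (vx false x)
    have hnb1 : ∀ y', Sub y' om → ZZ (rb x) (rb y') → Nb (vx true y') (vx false x) :=
      fun y' h1 h2 => ⟨x, y', hx, h1, Or.inr ⟨rfl, rfl⟩, h2⟩
    have hnb2 : ∀ x', Sub x' om → ZZ (rb x') (rb y) → Nb (vx false x') (vx true y) :=
      fun x' h1 h2 => ⟨x', y, h1, hy, Or.inl ⟨rfl, rfl⟩, h2⟩
    obtain ⟨n1, hn1⟩ := kap_fin hVx (fun y' => Sub y' om ∧ E (vx true y') V ∧
      E (opair (vx true y') (vx false x)) W ∧ ZZ (rb x) (rb y') ∧ y' ≠ y)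
      (fun y' => knum g (vx false x) (vx true y')) y hy (by
        rintro y' y'' ⟨a1, a2, a3, a4, _⟩ ⟨b1, b2, b3, b4, _⟩ e
        exact (vx_inj (hinj _ _ _ hxV a2 a3 (hnb1 y' a1 a4) b2 b3 (hnb1 y'' b1 b4) e)).2)
      (fun y' h => ⟨h.1, h.2.2.2.2⟩) p
    obtain ⟨n2, hn2⟩ := kap_fin hVx (fun x' => Sub x' om ∧ E (vx false x') V ∧
      E (opair (vx false x') (vx true y)) W ∧ ZZ (rb x') (rb y) ∧ x' ≠ x)
      (fun x' => knum g (vx true y) (vx false x')) x hx (by
        rintro y' y'' ⟨a1, a2, a3, a4, _⟩ ⟨b1, b2, b3, b4, _⟩ e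
        exact (vx_inj (hinj _ _ _ hyV a2 a3 (hnb2 y' a1 a4) b2 b3 (hnb2 y'' b1 b4) e)).2)
      (fun y' h => ⟨h.1, h.2.2.2.2⟩) q
    refine ⟨nu (max n1 n2), CUR.nu_mem_om _, ?_, ?_⟩
    · intro y' a1 a2 a3 a4 a5
      have hne : y' ≠ y := by
        rintro rfl
        exact not_mem_self _ a5
      rw [hp] at a5
      exact hmono y y' n1 (max n1 n2 + 1) (by omega) (hn1 y' ⟨a1, a2, a3, a4, hne⟩ a5)
    · intro x' a1 a2 a3 a4 a5
      have hne : x' ≠ x := by
        rintro rfl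
        exact not_mem_self _ a5
      rw [hq] at a5
      exact hmono x x' n2 (max n1 n2 + 1) (by omega) (hn2 x' ⟨a1, a2, a3, a4, hne⟩ a5)
  have hKP : ∀ x y : N, Sub x om → Sub y om → E (vx false x) V → E (vx true y) V →
      KP V W g x y (K x y) := fun x y hx hy h1 h2 =>
    (klst_spec hS (fun n => KP V W g x y n)).2 (hex x y hx hy h1 h2)
  have hsubx : ∀ (i : Bool) (x : N), E (vx i x) V → Sub x om := by
    intro i x h
    obtain ⟨j, x', hx', e⟩ := hVx.ofV V _ hV h
    obtain ⟨_, rfl⟩ := vx_inj e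
    exact hx'
  refine ⟨k, fun x y hx hy => ?_, ?_, ?_⟩
  · rw [hk x y hx hy]
    exact (klst_spec hS (fun n => KP V W g x y n)).1
  · intro x y y' n i j hxV hyV hyV' hz hz' hw hw' hki hkj hi hj e
    have hx := hsubx _ _ hxV
    have hy := hsubx _ _ hyV
    have hy' := hsubx _ _ hyV'
    rw [hk x y hx hy] at hki
    rw [hk x y' hx hy'] at hkj
    by_contra hne
    have hnb1 : ∀ y', Sub y' om → ZZ (rb x) (rb y') → Nb (vx true y') (vx false x) :=
      fun y' h1 h2 => ⟨x, y', hx, h1, Or.inr ⟨rfl, rfl⟩, h2⟩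
    obtain ⟨p, hp⟩ := hnm (vx false x) (vx true y)
    obtain ⟨q, hq⟩ := hnm (vx false x) (vx true y')
    have k1 := (hKP x y hx hy hxV hyV).1 y' hy' hyV' hw' hz'
    have k2 := (hKP x y' hx hy' hxV hyV').1 y hy hyV hw hz
    rw [hki, hp, hq] at k1
    rw [hkj, hp, hq] at k2
    rcases lt_trichotomy p q with h | h | h
    · exact hmono y' y (j + 1) (n + 1) (by omega) (k2 (CUR.nu_lt h)) e.symm
    · refine hne (vx_inj (hinj _ _ _ hxV hyV hw (hnb1 y hy hz) hyV' hw' (hnb1 y' hy' hz') ?_)).2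
      rw [hp, hq, h]
    · exact hmono y y' (i + 1) (n + 1) (by omega) (k1 (CUR.nu_lt h)) e
  · intro x x' y n i j hxV hxV' hyV hz hz' hw hw' hki hkj hi hj e
    have hx := hsubx _ _ hxV
    have hx' := hsubx _ _ hxV'
    have hy := hsubx _ _ hyV
    rw [hk x y hx hy] at hki
    rw [hk x' y hx' hy] at hkj
    by_contra hne
    have hnb2 : ∀ x', Sub x' om → ZZ (rb x') (rb y) → Nb (vx false x') (vx true y) :=
      fun x' h1 h2 => ⟨x', y, h1, hy, Or.inl ⟨rfl, rfl⟩, h2⟩
    obtain ⟨p, hp⟩ := hnm (vx true y) (vx false x)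
    obtain ⟨q, hq⟩ := hnm (vx true y) (vx false x')
    have k1 := (hKP x y hx hy hxV hyV).2 x' hx' hxV' hw' hz'
    have k2 := (hKP x' y hx' hy hxV' hyV).2 x hx hxV hw hz
    rw [hki, hp, hq] at k1
    rw [hkj, hp, hq] at k2
    rcases lt_trichotomy p q with h | h | h
    · exact hmono x' x (j + 1) (n + 1) (by omega) (k2 (CUR.nu_lt h)) e.symm
    · refine hne (vx_inj (hinj _ _ _ hyV hxV hw (hnb2 x hx hz) hxV' hw' (hnb2 x' hx' hz') ?_)).2
      rw [hp, hq, h]
    · exact hmono x x' (i + 1) (n + 1) (by omega) (k1 (CUR.nu_lt h)) e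

end AO
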