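import Pool.Agent.H47.AO.VOX
import Pool.Agent.H93.MA.CBT
import Pool.Agent.H35.MA.ACF

set_option linter.unusedVariables false
set_option linter.unusedSectionVars false
set_option synthInstance.maxSize 100000

namespace AO

open SW

instance vx_dft {N : Type} [SetStr N] [ZF N] {n : ℕ} {i : Bool} {t : (Fin n → N) → N}
    [ht : DfT t] : DfT (fun v => vx i (t v)) := by
  unfold vx
  exact (inferInstance : DfT (fun v => opair ((fun _ => if i then sing emp else emp) v) (t v)))

theorem nfd : NFDStmt := by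
  intro N _ _ l T y w s X B g2 vs hB h2 hvs hBX hs hX
  have hC : CbFacts N := ma_cbt ma_acf N
  have _ : ∀ {n : ℕ} {t : (Fin n → N) → N} [DfT t], DfT (fun v => vs (t v)) :=
    fun {n} {t} ht => hvs.comp1 ht
  have _ : ∀ {n : ℕ} {t t' : (Fin n → N) → N} [DfT t] [DfT t'], DfT (fun v => g2 (t v) (t' v)) :=
    fun {n} {t t'} ht ht' => h2.comp2 ht ht'
  let G : N → N := fun n => sep l (fun d => ∃ k, E k om ∧ E (g2 (app w n) k) X ∧
    ∃ b, E b (app s (g2 (app w n) k)) ∧ E (vx false (app y d)) (vs b))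
  have hG : Fn1 G := by
    show DfT (fun v : Fin 1 → N => sep l (fun d => ∃ k, E k om ∧ E (g2 (app w (v 0)) k) X ∧
      ∃ b, E b (app s (g2 (app w (v 0)) k)) ∧ E (vx false (app y d)) (vs b)))
    infer_instance
  have hGm : ∀ n d : N, E d (G n) ↔ E d l ∧ ∃ k, E k om ∧ E (g2 (app w n) k) X ∧
      ∃ b, E b (app s (g2 (app w n) k)) ∧ E (vx false (app y d)) (vs b) := by
    intro n d
    exact mem_sep' (C := fun d => ∃ k, E k om ∧ E (g2 (app w n) k) X ∧
      ∃ b, E b (app s (g2 (app w n) k)) ∧ E (vx false (app y d)) (vs b)) (by infer_instance)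
  have hcb : ∀ n : N, Cb (G n) := by
    intro n
    let P : N := sep om (fun k => E (g2 (app w n) k) X)
    have hPm : ∀ k, E k P ↔ E k om ∧ E (g2 (app w n) k) X := fun k =>
      mem_sep' (C := fun k => E (g2 (app w n) k) X) (by infer_instance)
    have hP : Cb P := hC.sub hC.om fun k hk => ((hPm k).1 hk).1
    let I : N → N := fun k => sUn (img (app s (g2 (app w n) k)) vs)
    have hI : Fn1 I := by
      show DfT (fun v : Fin 1 → N => sUn (img (app s (g2 (app w n) (v 0))) (fun b => vs b)))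
      infer_instance
    have hIm : ∀ k z, E z (I k) ↔ ∃ b, E b (app s (g2 (app w n) k)) ∧ E z (vs b) := by
      intro k z
      show E z (sUn (img (app s (g2 (app w n) k)) vs)) ↔ _
      rw [mem_sUn]
      constructor
      · rintro ⟨u, hu, hz⟩
        obtain ⟨b, hb, rfl⟩ := (mem_img' hvs).1 hu
        exact ⟨b, hb, hz⟩
      · rintro ⟨b, hb, hz⟩
        exact ⟨_, (mem_img' hvs).2 ⟨b, hb, rfl⟩, hz⟩
    have hU : Cb (sUn (img P I)) := by
      refine hC.iUn I hI hP fun k hk => ?_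
      obtain ⟨hk1, hk2⟩ := (hPm k).1 hk
      obtain ⟨hf, hsb⟩ := hs _ hk2
      exact hC.iUn vs hvs (hC.fin hf) fun b hb => hX b (hBX b (hsb b hb))
    have hvy : Fn1 (fun d : N => vx false (app y d)) := by
      show DfT (fun v : Fin 1 → N => vx false (app y (v 0)))
      infer_instance
    refine hC.inj (fun d => vx false (app y d)) hvy hU ?_ ?_
    · intro d hd
      obtain ⟨_, k, hk, hk2, b, hb, hv⟩ := (hGm n d).1 hd
      rw [mem_sUn]
      exact ⟨I k, (mem_img' hI).2 ⟨k, (hPm k).2 ⟨hk, hk2⟩, rfl⟩, (hIm k _).2 ⟨b, hb, hv⟩⟩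
    · intro d d' hd hd' e
      exact hB.iy d d' ((hGm n d).1 hd).1 ((hGm n d').1 hd').1 (vx_inj e).2
  obtain ⟨d, hd, hun, hnot⟩ := hB.unc (gr l G) (fun n hn => by
    rw [app_gr hG hn]
    exact hcb n)
  refine ⟨d, hd, hun, fun n k b hn hk hk2 hb hv => ?_⟩
  have hnl : E n l := hB.ord.trans hd (mem_nb.1 hn).1
  refine hnot n hn ?_
  rw [app_gr hG hnl]
  exact (hGm n d).2 ⟨hd, k, hk, hk2, b, hb, hv⟩

end AO
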