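import Pool.Agent.H98.AO.GStmts
import Pool.Agent.H78.CUR.NU

set_option linter.unusedVariables false
set_option linter.unusedSectionVars false
set_option synthInstance.maxSize 100000

namespace AO

open SW

section
variable {N : Type} [SetStr N] [ZF N]

theorem rb_iff {x : N} {n : ℕ} : rb x n = true ↔ E (nu n) x := by
  unfold rb
  simp only [decide_eq_true_eq]

theorem rb_eq_iff {x y : N} {n : ℕ} : rb x n = rb y n ↔ (E (nu n) x ↔ E (nu n) y) := by
  rw [← rb_iff, ← rb_iff, Bool.eq_iff_iff]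

theorem rb_inj (hS : Std N) {x y : N} (hx : Sub x om) (hy : Sub y om) (h : rb x = rb y) :
    x = y := by
  have key : ∀ a b : N, Sub a om → rb a = rb b → Sub a b := by
    intro a b ha hab z hz
    obtain ⟨n, rfl⟩ := hS z (ha z hz)
    exact (rb_eq_iff.1 (congrFun hab n)).1 hz
  exact Sub.antisymm (key x y hx h) (key y x hy h.symm)

theorem vx_inj {i j : Bool} {x y : N} (h : vx i x = vx j y) : i = j ∧ x = y := by
  unfold vx at h
  obtain ⟨h1, h2⟩ := opair_inj.1 h
  refine ⟨?_, h2⟩
  have hne : (sing emp : N) ≠ emp := by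
    intro h'
    have : E (emp : N) (sing emp) := mem_sing.2 rfl
    rw [h'] at this
    exact not_mem_emp _ this
  cases i <;> cases j
  · rfl
  · exact absurd h1.symm hne
  · exact absurd h1 hne
  · rfl

theorem mem_nu' (n : ℕ) (x : N) : E x (nu n : N) ↔ ∃ m, m < n ∧ x = nu m := CUR.mem_nu n x

theorem str_eq_iff {X Y : Rl} {n : ℕ} : str X n = str Y n ↔ ∀ m, m < n → X m = Y m := by
  unfold str
  rw [List.map_inj_left]
  simp only [List.mem_range]

theorem inter_nu_eq_iff {x y : N} {n : ℕ} :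
    inter x (nu n) = inter y (nu n) ↔ ∀ m, m < n → rb x m = rb y m := by
  constructor
  · intro h m hm
    rw [rb_eq_iff]
    have h1 : E (nu m) (inter x (nu n)) ↔ E (nu m) (inter y (nu n)) := by rw [h]
    rw [mem_inter, mem_inter] at h1
    have h2 : E (nu m : N) (nu n) := (mem_nu' n _).2 ⟨m, hm, rfl⟩
    tauto
  · intro h
    refine SW.ext fun z => ?_
    rw [mem_inter, mem_inter]
    constructor
    · rintro ⟨h1, h2⟩
      obtain ⟨m, hm, rfl⟩ := (mem_nu' n z).1 h2
      exact ⟨(rb_eq_iff.1 (h m hm)).1 h1, h2⟩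
    · rintro ⟨h1, h2⟩
      obtain ⟨m, hm, rfl⟩ := (mem_nu' n z).1 h2
      exact ⟨(rb_eq_iff.1 (h m hm)).2 h1, h2⟩

theorem str_rb_eq_iff {x y : N} {n : ℕ} :
    str (rb x) n = str (rb y) n ↔ inter x (nu n) = inter y (nu n) := by
  rw [str_eq_iff, inter_nu_eq_iff]

end

theorem vox : VOXStmt := by
  intro N _ _ hS
  refine ⟨fun x y hx hy h => rb_inj hS hx hy h, fun i j x y h => vx_inj h, ?_, ?_, ?_,
    fun x y n hx hy => str_rb_eq_iff, ?_⟩
  · intro V x i hx
    constructor
    · rintro ⟨x', hx', h1, h2⟩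
      have := rb_inj hS hx' hx h1
      rw [this] at h2
      exact h2
    · intro h
      exact ⟨x, hx, rfl, h⟩
  · intro V v hV hv
    obtain ⟨x, hx, h1 | h1⟩ := hV v hv
    · exact ⟨false, x, hx, h1⟩
    · exact ⟨true, x, hx, h1⟩
  · intro W x y i j hx hy
    constructor
    · rintro ⟨x', y', hx', hy', h1, h2, h3⟩
      have e1 := rb_inj hS hx' hx h1
      have e2 := rb_inj hS hy' hy h2
      rw [e1, e2] at h3
      exact h3
    · intro h
      exact ⟨x, y, hx, hy, rfl, rfl, h⟩
  · intro x y hx hy hne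
    by_contra hc
    push Not at hc
    refine hne (rb_inj hS hx hy (funext fun n => ?_))
    exact inter_nu_eq_iff.1 (hc (n + 1)) n (Nat.lt_succ_self n)

end AO
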