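import Pool.Agent.H98.AO.GStmts

set_option linter.unusedVariables false
set_option linter.unusedSectionVars false
set_option synthInstance.maxSize 100000

namespace AO

open SW

section
variable {N : Type} [SetStr N] [ZF N]

/-- the members of `V` which are not values of `g` on `x` -/
def wRem (V x g v : N) : Prop := E v V ∧ ¬ ∃ b, E b x ∧ E (opair b v) g

/-- the `W`-least member of `V` which is not a value of `g` on `x` -/
noncomputable def wF (V W x g : N) : N :=
  the (fun v => wRem V x g v ∧ ∀ v', wRem V x g v' → ¬ E (opair v' v) W)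

theorem wF_df (V W : N) : Fn2 (fun x g : N => wF V W x g) := by
  unfold wF wRem; infer_instance

/-- the enumeration of `V` along the ordinals -/
noncomputable def wf' (V W : N) (x : N) : N := mrec (wF V W) x

theorem wf'_df (V W : N) : Fn1 (fun x : N => wf' V W x) := by
  unfold wf'
  have : Fn2 (wF V W) := wF_df V W
  infer_instance

theorem wf'_eq (V W x : N) : wf' V W x = wF V W x (gr x (wf' V W)) := mrec_eq (wF_df V W) x

theorem wRem_iff (V W x v : N) : wRem V x (gr x (wf' V W)) v ↔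
    E v V ∧ ∀ b, E b x → wf' V W b ≠ v := by
  unfold wRem
  refine and_congr_right fun _ => ?_
  constructor
  · intro h b hb e
    exact h ⟨b, hb, (opair_mem_gr (wf'_df V W)).2 ⟨hb, e.symm⟩⟩
  · rintro h ⟨b, hb, h'⟩
    obtain ⟨_, e⟩ := (opair_mem_gr (wf'_df V W)).1 h'
    exact h b hb e.symm

theorem wf'_spec {V W : N} (h : GW V W) (x : N)
    (hx : ∃ v, E v V ∧ ∀ b, E b x → wf' V W b ≠ v) :
    (E (wf' V W x) V ∧ ∀ b, E b x → wf' V W b ≠ wf' V W x) ∧
      ∀ v', E v' V → (∀ b, E b x → wf' V W b ≠ v') → ¬ E (opair v' (wf' V W x)) W := by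
  have hc : Cl (fun v : N => ∀ b, E b x → wf' V W b ≠ v) := by
    have := wf'_df V W
    have _ : ∀ {k : ℕ} {t : (Fin k → N) → N} [DfT t], DfT (fun v => wf' V W (t v)) :=
      fun {k} {t} ht => this.comp1 ht
    infer_instance
  let S : N := sep V (fun v => ∀ b, E b x → wf' V W b ≠ v)
  have hS : ∀ v, E v S ↔ E v V ∧ ∀ b, E b x → wf' V W b ≠ v := fun v => mem_sep' hc
  obtain ⟨u, hu, hmin⟩ := h.wf S (fun v hv => ((hS v).1 hv).1) (by
    obtain ⟨v, hv⟩ := hx
    exact ⟨v, (hS v).2 hv⟩)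
  have hex : ∃! v, wRem V x (gr x (wf' V W)) v ∧
      ∀ v', wRem V x (gr x (wf' V W)) v' → ¬ E (opair v' v) W := by
    refine ⟨u, ⟨(wRem_iff V W x u).2 ((hS u).1 hu), fun v' hv' =>
      hmin v' ((hS v').2 ((wRem_iff V W x v').1 hv'))⟩, ?_⟩
    rintro u' ⟨h1, h2⟩
    by_contra hne
    have hu1 := (hS u).1 hu
    have hu2 := (wRem_iff V W x u').1 h1
    rcases h.tot u' u hu2.1 hu1.1 hne with h3 | h3
    · exact hmin u' ((hS u').2 hu2) h3
    · exact h2 u ((wRem_iff V W x u).2 hu1) h3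
  have key := the_spec hex
  have e : wf' V W x = the (fun v => wRem V x (gr x (wf' V W)) v ∧
      ∀ v', wRem V x (gr x (wf' V W)) v' → ¬ E (opair v' v) W) := wf'_eq V W x
  rw [← e] at key
  refine ⟨(wRem_iff V W x _).1 key.1, fun v' h1 h2 => ?_⟩
  exact key.2 v' ((wRem_iff V W x v').2 ⟨h1, h2⟩)

theorem wf'_surj {V W : N} (h : GW V W) {v : N} (hv : E v V) : ∃ a, Ord a ∧ wf' V W a = v := by
  by_contra hc
  push Not at hc
  have h1 : ∀ a : N, Ord a → (E (wf' V W a) V ∧ ∀ b, E b a → wf' V W b ≠ wf' V W a) := by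
    intro a ha
    exact (wf'_spec h a ⟨v, hv, fun b hb => hc b (ha.mem hb)⟩).1
  have hinj : ∀ a b : N, Ord a → Ord b → wf' V W a = wf' V W b → a = b := by
    intro a b ha hb e
    rcases ha.tri hb with h2 | h2 | h2
    · exact absurd e ((h1 b hb).2 a h2)
    · exact h2
    · exact absurd e.symm ((h1 a ha).2 b h2)
  have hf := wf'_df V W
  have _ : ∀ {k : ℕ} {t : (Fin k → N) → N} [DfT t], DfT (fun v => wf' V W (t v)) :=
    fun {k} {t} ht => hf.comp1 ht
  let F : N → N := fun u => the (fun a => Ord a ∧ wf' V W a = u)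
  have hF : Fn1 F := by
    show DfT (fun w : Fin 1 → N => the (fun a => Ord a ∧ wf' V W a = w 0))
    infer_instance
  obtain ⟨a, ha, hna⟩ := exists_ord_not_mem (img V F)
  refine hna ((mem_img' hF).2 ⟨wf' V W a, (h1 a ha).1, ?_⟩)
  refine (the_eq (p := fun b => Ord b ∧ wf' V W b = wf' V W a) ⟨ha, rfl⟩ ?_).symm
  rintro b ⟨hb, e⟩
  exact hinj b a hb ha e

end

theorem wox : WOXStmt := by
  intro N _ _ hwf V W h S hSV hne
  let A : Set N := {a | Ord a ∧ wf' V W a ∈ S}
  have hA : A.Nonempty := by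
    obtain ⟨v, hv⟩ := hne
    obtain ⟨a, ha, e⟩ := wf'_surj h (hSV v hv)
    exact ⟨a, ha, by rw [e]; exact hv⟩
  obtain ⟨a, ⟨ha, haS⟩, hmin⟩ := hwf.has_min A hA
  refine ⟨wf' V W a, haS, fun v' hv' hlt => ?_⟩
  by_cases hc : ∀ b, E b a → wf' V W b ≠ v'
  · exact (wf'_spec h a ⟨v', hSV v' hv', hc⟩).2 v' (hSV v' hv') hc hlt
  · push Not at hc
    obtain ⟨b, hb, e⟩ := hc
    exact hmin b ⟨ha.mem hb, by rw [e]; exact hv'⟩ hb

end AO
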